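import Pool.Agent.U410.FM.Comb
import Pool.Agent.Q134.SV.Cls

set_option autoImplicit false
set_option linter.unusedSectionVars false

/-! # Cycles of flag normal pseudomanifolds; the induction -/

open scoped Classical

namespace Pool.Agent.U410.FM

open Pool.Agent.W497.FS
open Pool.Agent.Q134.SV
open Pool.Agent.W907.SG (chiW)

variable {V : Type} [Fintype V] {G : SimpleGraph V}

/-- the chain `a` is supported on tuples of vertices in `X` -/
def SuppIn (X : Finset V) {n : ℕ} (a : (Fin n → V) → ℝ) : Prop := ∀ v, a v ≠ 0 → ∀ i, v i ∈ X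

omit [Fintype V] in
theorem cons_swap {n : ℕ} (s : V) (u : Fin n → V) (i j : Fin n) :
    (Fin.cons s (u ∘ Equiv.swap i j) : Fin (n + 1) → V) =
      (Fin.cons s u : Fin (n + 1) → V) ∘ Equiv.swap i.succ j.succ := by
  funext l
  refine Fin.cases ?_ (fun l => ?_) l
  · simp only [Function.comp_apply]
    rw [Equiv.swap_apply_of_ne_of_ne (Fin.succ_ne_zero _).symm (Fin.succ_ne_zero _).symm]
    rfl
  · simp only [Function.comp_apply, Fin.cons_succ]
    rcases eq_or_ne l i with rfl | h1
    · rw [Equiv.swap_apply_left, Equiv.swap_apply_left, Fin.cons_succ]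
    rcases eq_or_ne l j with rfl | h2
    · rw [Equiv.swap_apply_right, Equiv.swap_apply_right, Fin.cons_succ]
    rw [Equiv.swap_apply_of_ne_of_ne h1 h2, Equiv.swap_apply_of_ne_of_ne
      (fun h => h1 (Fin.succ_injective _ h)) (fun h => h2 (Fin.succ_injective _ h)), Fin.cons_succ]

theorem isCyc_slice {n : ℕ} {a : (Fin (n + 1) → V) → ℝ} (ha : IsCyc (n + 1) G a) (s : V) :
    IsCyc n G (fun u => a (Fin.cons s u)) := by
  refine ⟨?_, ?_, ?_⟩
  · intro u i j hij
    rw [cons_swap, ha.alt _ i.succ j.succ (fun h => hij (Fin.succ_injective _ h))]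
  · intro u hu i j hij
    have := ha.supp _ hu i.succ j.succ (fun h => hij (Fin.succ_injective _ h))
    simpa using this
  · intro u i
    have := ha.cyc (Fin.cons s u) i.succ
    rw [← this]
    refine Finset.sum_congr rfl fun x _ => ?_
    change a (Fin.cons s (Function.update u i x)) = _
    rw [Fin.cons_update]

theorem suppIn_slice {n : ℕ} {a : (Fin (n + 1) → V) → ℝ} (ha : IsCyc (n + 1) G a) {X : Finset V}
    (hX : SuppIn X a) (s : V) : SuppIn (lk G X s) (fun u => a (Fin.cons s u)) := by
  intro u hu i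
  have h1 := hX _ hu i.succ
  have h2 := ha.supp _ hu 0 i.succ (Fin.succ_ne_zero _).symm
  rw [Fin.cons_succ] at h1 h2
  rw [Fin.cons_zero] at h2
  exact mem_lk.2 ⟨h1, h2⟩

theorem exists_tuple {n : ℕ} {X : Finset V} (h : NP G n X) :
    ∃ v : Fin n → V, (∀ i, v i ∈ X) ∧ ∀ i j, i ≠ j → G.Adj (v i) (v j) := by
  induction n generalizing X with
  | zero => exact ⟨Fin.elim0, fun i => i.elim0, fun i => i.elim0⟩
  | succ n ih =>
    obtain ⟨s, hs⟩ := h.nonempty
    obtain ⟨v, h1, h2⟩ := ih (h.lk hs)
    refine ⟨Fin.cons s v, ?_, pa_cons h2 fun i => (mem_lk.1 (h1 i)).2⟩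
    intro i
    refine Fin.cases ?_ (fun i => ?_) i
    · exact hs
    · exact (mem_lk.1 (h1 i)).1

/-- a cycle which vanishes on one maximal simplex is zero -/
theorem full_zero : ∀ (n : ℕ) (X : Finset V) (a : (Fin n → V) → ℝ), NP G n X → IsCyc n G a →
    SuppIn X a → ∀ v : Fin n → V, (∀ i, v i ∈ X) → (∀ i j, i ≠ j → G.Adj (v i) (v j)) → a v = 0 →
    a = 0
  | 0, _, a, _, _, _, v, _, _, h0 => by
    funext u
    rw [Subsingleton.elim u v, h0]
    rfl
  | 1, X, a, h, ha, hX, v, hv, _, h0 => by
    have h' : X.card = 2 ∧ ∀ x ∈ X, ∀ y ∈ X, ¬ G.Adj x y := h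
    obtain ⟨p, q, hpq, hXe⟩ := Finset.card_eq_two.1 h'.1
    have hz : ∀ x, x ≠ p → x ≠ q → ∀ u : Fin 1 → V, u 0 = x → a u = 0 := by
      intro x h1 h2 u hu
      by_contra hne
      have := hX u hne 0
      rw [hu, hXe, Finset.mem_insert, Finset.mem_singleton] at this
      tauto
    have key : ∀ p q : V, p ≠ q → (∀ x, x ≠ p → x ≠ q → ∀ u : Fin 1 → V, u 0 = x → a u = 0) →
        v 0 = p → a = 0 := by
      intro p q hpq hz hvp
      have hs := ha.cyc v 0
      have hpv : Function.update v 0 p = v := by rw [← hvp, Function.update_eq_self]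
      rw [Finset.sum_eq_single q] at hs
      · funext u
        by_cases h1 : u 0 = p
        · have : u = v := by
            funext i
            rw [Subsingleton.elim (α := Fin 1) i 0, h1, hvp]
          rw [this, h0]
          rfl
        · by_cases h2 : u 0 = q
          · have : u = Function.update v 0 q := by
              funext i
              rw [Subsingleton.elim (α := Fin 1) i 0, h2, Function.update_self]
            rw [this, hs]
            rfl
          · exact hz _ h1 h2 u rfl
      · intro x _ hx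
        by_cases hxp : x = p
        · rw [hxp, hpv, h0]
        · exact hz x hxp hx _ (Function.update_self _ _ _)
      · intro h'
        exact absurd (Finset.mem_univ _) h'
    have hv0 := hv 0
    rw [hXe, Finset.mem_insert, Finset.mem_singleton] at hv0
    rcases hv0 with hv0 | hv0
    · exact key p q hpq hz hv0
    · exact key q p hpq.symm (fun x h1 h2 => hz x h2 h1) hv0
  | n + 2, X, a, h, ha, hX, v, hv, hvv, h0 => by
    have ih : ∀ s ∈ X, ∀ w : Fin (n + 1) → V, (∀ i, w i ∈ lk G X s) →
        (∀ i j, i ≠ j → G.Adj (w i) (w j)) → a (Fin.cons s w) = 0 →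
        (fun u => a (Fin.cons s u)) = 0 := fun s hs w h1 h2 h3 =>
      full_zero (n + 1) (lk G X s) _ (h.lk hs) (isCyc_slice ha s) (suppIn_slice ha hX s) w h1 h2 h3
    let Z : Finset V := X.filter fun s => (fun u => a (Fin.cons s u)) = 0
    have hvZ : v 0 ∈ Z := by
      refine Finset.mem_filter.2 ⟨hv 0, ih (v 0) (hv 0) (Fin.tail v) ?_ ?_ ?_⟩
      · intro i
        exact mem_lk.2 ⟨hv _, hvv _ _ (Fin.succ_ne_zero _).symm⟩
      · intro i j hij
        exact hvv _ _ (fun h => hij (Fin.succ_injective _ h))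
      · rw [Fin.cons_self_tail, h0]
    have hZX : Z = X := by
      by_contra hne
      obtain ⟨s, hs, t, ht, htZ, hst⟩ := h.2.1 Z (Finset.filter_subset _ _) ⟨_, hvZ⟩ hne
      obtain ⟨hsX, hs0⟩ := Finset.mem_filter.1 hs
      apply htZ
      have ht' : t ∈ lk G X s := mem_lk.2 ⟨ht, hst⟩
      obtain ⟨w, hw1, hw2⟩ := exists_tuple ((h.lk hsX).lk ht')
      have hw3 : ∀ i, w i ∈ X ∧ G.Adj s (w i) ∧ G.Adj t (w i) := fun i => by
        have := mem_lk.1 (hw1 i)
        exact ⟨(mem_lk.1 this.1).1, (mem_lk.1 this.1).2, this.2⟩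
      refine Finset.mem_filter.2 ⟨ht, ih t ht (Fin.cons s w) ?_ (pa_cons hw2 fun i =>
        (hw3 i).2.1) ?_⟩
      · intro i
        refine Fin.cases ?_ (fun i => ?_) i
        · exact mem_lk.2 ⟨hsX, hst.symm⟩
        · exact mem_lk.2 ⟨(hw3 i).1, (hw3 i).2.2⟩
      · have e1 := congrFun hs0 (Fin.cons t w)
        have e2 : (Fin.cons t (Fin.cons s w) : Fin (n + 2) → V) =
            (Fin.cons s (Fin.cons t w) : Fin (n + 2) → V) ∘ Equiv.swap 0 1 := by
          funext i
          refine Fin.cases ?_ (fun i => Fin.cases ?_ (fun i => ?_) i) i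
          · simp
          · change s = (Fin.cons s (Fin.cons t w) : Fin (n + 2) → V) (Equiv.swap 0 1 1)
            rw [Equiv.swap_apply_right]
            rfl
          · simp only [Function.comp_apply]
            rw [Equiv.swap_apply_of_ne_of_ne]
            · rfl
            · exact Fin.succ_ne_zero _
            · intro h
              rw [Fin.ext_iff] at h
              simp at h
        rw [e2, ha.alt _ 0 1 (by simp)]
        simp only [Pi.zero_apply] at e1
        rw [e1, neg_zero]
    funext u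
    by_contra hne
    have hu0 : u 0 ∈ Z := by
      rw [hZX]
      exact hX u hne 0
    have := congrFun (Finset.mem_filter.1 hu0).2 (Fin.tail u)
    simp only [Pi.zero_apply, Fin.cons_self_tail] at this
    exact hne this

theorem push_inj {U : Type} [Fintype U] {n : ℕ} (j : U → V) (hj : Function.Injective j)
    (a : (Fin n → U) → ℝ) (v : Fin n → U) : push j a (j ∘ v) = a v := by
  unfold push
  rw [Finset.sum_eq_single v]
  · rw [if_pos rfl]
  · intro u _ hu
    rw [if_neg]
    intro h
    exact hu (funext fun i => hj (congrFun h i))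
  · intro h
    exact absurd (Finset.mem_univ _) h

/-- `G'` is (isomorphic to) the subgraph of `G` induced by `X` -/
structure Emb {U : Type} (G' : SimpleGraph U) (G : SimpleGraph V) (X : Finset V) (j : U → V) :
    Prop where
  inj : Function.Injective j
  adj : ∀ x y, G'.Adj x y ↔ G.Adj (j x) (j y)
  mem : ∀ y, y ∈ X ↔ ∃ x, j x = y

theorem Emb.full {U : Type} [Fintype U] {G' : SimpleGraph U} {X : Finset V} {j : U → V}
    (hj : Emb G' G X j) {n : ℕ} (h : NP G n X) {a : (Fin n → U) → ℝ} (ha : IsCyc n G' a)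
    (hne : a ≠ 0) (v : Fin n → U) (hv : ∀ i k, i ≠ k → G'.Adj (v i) (v k)) : a v ≠ 0 := by
  intro h0
  apply hne
  have h1 : push j a = 0 := by
    refine full_zero n X _ h (ha.push j fun x y hxy => Or.inr ((hj.adj x y).1 hxy)) ?_ (j ∘ v) ?_ ?_
      (by rw [push_inj j hj.inj, h0])
    · intro u hu i
      obtain ⟨w, -, hw⟩ := Finset.exists_ne_zero_of_sum_ne_zero hu
      by_cases h1 : j ∘ w = u
      · exact (hj.mem _).2 ⟨w i, congrFun h1 i⟩
      · rw [if_neg h1] at hw
        exact absurd rfl hw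
    · intro i
      exact (hj.mem _).2 ⟨v i, rfl⟩
    · intro i k hik
      exact (hj.adj _ _).1 (hv i k hik)
  funext u
  rw [← push_inj j hj.inj a u, h1]
  rfl

theorem Emb.opm {U : Type} [Fintype U] {G' : SimpleGraph U} {X : Finset V} {j : U → V}
    (hj : Emb G' G X j) {n : ℕ} (h : NP G n X) {a : (Fin n → U) → ℝ} (ha : IsCyc n G' a)
    (hne : a ≠ 0) : OPM n G' := by
  refine ⟨?_, ⟨a, ha, hne⟩, fun b hb hbne v hv => hj.full h hb hbne v hv⟩
  intro T hT
  have h1 : T.map ⟨j, hj.inj⟩ ∈ cl G X := by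
    rw [mem_cl]
    refine ⟨fun y hy => ?_, fun x hx y hy hxy => ?_⟩
    · obtain ⟨x, -, rfl⟩ := Finset.mem_map.1 hy
      exact (hj.mem _).2 ⟨x, rfl⟩
    · obtain ⟨x', hx', rfl⟩ := Finset.mem_map.1 hx
      obtain ⟨y', hy', rfl⟩ := Finset.mem_map.1 hy
      exact (hj.adj _ _).1 (hT.isClique hx' hy' fun h => hxy (by rw [h]))
  have h2 := h.card_le h1
  rw [Finset.card_map, hT.card_eq] at h2
  omega

theorem pos_zero {U : Type} [Fintype U] (G' : SimpleGraph U) (hU : IsEmpty U) : Pos 0 G' := by
  intro a _ hne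
  refine ⟨fun _ => 1, ⟨fun x => hU.elim x, ?_, ⟨1, fun _ => by simp⟩, fun _ i => i.elim0⟩, ?_⟩
  · intro g
    unfold cobd
    simp [Fin.sum_univ_two]
  · unfold pair
    intro h0
    apply hne
    funext u
    have : (Finset.univ : Finset (Fin 0 → U)) = {u} := by
      ext v
      rw [Finset.mem_singleton]
      exact ⟨fun _ => Subsingleton.elim v u, fun _ => Finset.mem_univ _⟩
    rw [this, Finset.sum_singleton, mul_one] at h0
    exact h0

/-- **the induction** -/
theorem pos_main (n : ℕ) : ∀ X : Finset V, NP G n X → Eul G n X → lam G X ≠ 0 → FC G X →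
    ∀ (U : Type) [Fintype U] (G' : SimpleGraph U) (j : U → V), Emb G' G X j → Pos n G' := by
  induction n using Nat.strong_induction_on with
  | _ n ih =>
    intro X h hE hl hF U _ G' j hj
    rcases n with _ | n
    · have hX : X = ∅ := h
      refine pos_zero G' ⟨fun x => ?_⟩
      have := (hj.mem (j x)).2 ⟨x, rfl⟩
      rw [hX] at this
      exact absurd this (Finset.notMem_empty _)
    · obtain ⟨e, rfl, s, hs, t, ht, hst, hsq, hNP, hEul, hl', hF'⟩ := step h hE hl hF
      obtain ⟨s', rfl⟩ := (hj.mem s).1 hs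
      obtain ⟨t', rfl⟩ := (hj.mem t).1 ht
      intro a ha hne
      have hG : OPM (e + 2) G' := hj.opm h ha hne
      have hst' : G'.Adj s' t' := (hj.adj _ _).2 hst
      have hsq' : NoSquare G' s' t' := by
        intro x y hx hy h1 h2 h3
        have := hsq (j x) ((hj.mem _).2 ⟨x, rfl⟩) (j y) ((hj.mem _).2 ⟨y, rfl⟩)
          (fun h => hx (hj.inj h)) (fun h => hy (hj.inj h)) ((hj.adj _ _).1 h1)
          ((hj.adj _ _).1 h2) ((hj.adj _ _).1 h3)
        rwa [← hj.adj, ← hj.adj] at this
      have hj' : Emb (G'.induce (G'.neighborSet s' ∩ G'.neighborSet t')) G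
          (lkF G X {j s', j t'}) (fun x => j (x : U)) := by
        refine ⟨fun x y hxy => Subtype.ext (hj.inj hxy), fun x y => hj.adj _ _, fun y => ?_⟩
        rw [mem_lkF]
        constructor
        · rintro ⟨h1, h2⟩
          obtain ⟨x, rfl⟩ := (hj.mem y).1 h1
          exact ⟨⟨x, (hj.adj _ _).2 (h2 _ (by simp)), (hj.adj _ _).2 (h2 _ (by simp))⟩, rfl⟩
        · rintro ⟨x, rfl⟩
          refine ⟨(hj.mem _).2 ⟨_, rfl⟩, fun z hz => ?_⟩
          rw [Finset.mem_insert, Finset.mem_singleton] at hz
          rcases hz with rfl | rfl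
          · exact (hj.adj _ _).1 x.2.1
          · exact (hj.adj _ _).1 x.2.2
      have hP := ih e (by omega) _ hNP hEul hl' hF' _ _ _ hj'
      have hK : OPM e (G'.induce (G'.neighborSet s' ∩ G'.neighborSet t')) := by
        obtain ⟨w, hw1, hw2⟩ := exists_tuple hNP
        choose κ hκ using fun i => (hj'.mem (w i)).1 (hw1 i)
        have hκ2 : ∀ i k, i ≠ k → (G'.induce (G'.neighborSet s' ∩ G'.neighborSet t')).Adj
            (κ i) (κ k) := by
          intro i k hik
          rw [hj'.adj, hκ, hκ]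
          exact hw2 i k hik
        refine hj'.opm hNP (a := lnk a s' t' (G'.neighborSet s' ∩ G'.neighborSet t'))
          (isCyc_lnk ha s' t' _ fun x h h' => ⟨h, h'⟩) ?_
        intro h0
        have h2 := congrFun h0 κ
        refine hG.full a ha hne _ (pa_cons (pa_cons ?_ ?_) ?_) h2
        · intro i k hik
          simpa using hκ2 i k hik
        · intro i
          exact (κ i).2.2
        · intro i
          refine Fin.cases ?_ (fun i => ?_) i
          · exact hst'
          · exact (κ i).2.1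
      exact pos_of_link hG hst' hsq' hK hP a ha hne

theorem chiW_eq_lam : chiW G = lam G (Finset.univ : Finset V) := by
  unfold chiW lam fe cl
  rw [Finset.sum_filter]
  refine Finset.sum_congr ?_ fun T _ => ?_
  · ext T
    simp
  · congr 1

theorem emb_univ : Emb G G (Finset.univ : Finset V) (fun x => x) :=
  ⟨fun _ _ h => h, fun _ _ => Iff.rfl, fun y => ⟨fun _ => ⟨y, rfl⟩, fun _ => Finset.mem_univ _⟩⟩

end Pool.Agent.U410.FM
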