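import Pool.Agent.W497.FS.Top

set_option autoImplicit false
set_option linter.unusedSectionVars false

/-! # Flag complexes with few vertices: an edge in no square whose link is again of this kind -/

namespace Pool.Agent.U410.FM

open Pool.Agent.W497.FS

variable {α : Type} [DecidableEq α] {H : SimpleGraph α}

/-- every join factor has rank at most two or at most `3 e - 1` vertices, where `e` is its rank -/
def FC (H : SimpleGraph α) (W : Finset α) : Prop :=
  ∀ C ∈ comps H W, ∀ e, NP H e C → e ≤ 2 ∨ C.card + 1 ≤ 3 * e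

theorem comp_split {W C : Finset α} (hC : C ∈ comps H W) :
    Full H C (W \ C) ∧ C ∪ (W \ C) = W ∧ Prm H C := by
  obtain ⟨h1, h2, h3⟩ := mem_comps.1 hC
  refine ⟨fun c hc x hx => ?_, Finset.union_sdiff_of_subset h1, h2⟩
  rw [Finset.mem_sdiff] at hx
  exact h3 c hc x hx.1 hx.2

theorem FC.union {A B : Finset α} (hAB : Full H A B) (hA : FC H A) (hB : FC H B) :
    FC H (A ∪ B) := by
  intro C hC
  rw [comps_union hAB, Finset.mem_union] at hC
  rcases hC with hC | hC
  · exact hA C hC
  · exact hB C hC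

theorem FC.right {A B : Finset α} (hAB : Full H A B) (h : FC H (A ∪ B)) : FC H B := by
  intro C hC
  exact h C (by rw [comps_union hAB]; exact Finset.mem_union_right _ hC)

theorem FC.left {A B : Finset α} (hAB : Full H A B) (h : FC H (A ∪ B)) : FC H A := by
  intro C hC
  exact h C (by rw [comps_union hAB]; exact Finset.mem_union_left _ hC)

/-- defect zero -/
theorem fc_of_defect {d : ℕ} {W : Finset α} (h : NP H d W)
    (hδ : W.card + (comps H W).card ≤ 3 * d) : FC H W := by
  intro C hC e he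
  right
  obtain ⟨h1, h2, h3⟩ := comp_split hC
  rw [← h2] at h
  obtain ⟨d₁, d₂, hd, k1, k2⟩ := h.split h1
  have := k1.rank_unique he
  subst this
  have k3 := k2.three_mul_le
  rw [← h2, card_comps_union h1, comps_prm h3, Finset.card_union_of_disjoint h1.disjoint,
    Finset.card_singleton] at hδ
  omega

theorem five_mul_le {d : ℕ} {W : Finset α} (h : NP H d W) (hE : Eul H d W)
    (hl : lam H W ≠ 0) : 5 * d ≤ 2 * W.card := by
  rcases Nat.even_or_odd d with ho | ho
  · obtain ⟨n, hn⟩ := ho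
    obtain rfl : d = 2 * n := by omega
    by_contra hc
    exact hl ((lam_few h hE).1 (by omega))
  · exact absurd (lam_odd hE ho) hl

/-- at most `(5 d + 3) / 2` vertices -/
theorem fc_of_card {d : ℕ} {W : Finset α} (h : NP H d W) (hE : Eul H d W)
    (hl : lam H W ≠ 0) (hN : 2 * W.card ≤ 5 * d + 3) : FC H W := by
  intro C hC e he
  obtain ⟨h1, h2, h3⟩ := comp_split hC
  rw [← h2] at h hE hl hN
  obtain ⟨d₁, d₂, rfl, k1, k2⟩ := h.split h1
  have := k1.rank_unique he
  subst this
  have e1 := hE.left h1 k2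
  have e2 := hE.right h1 k1
  rw [lam_join h1] at hl
  have l1 := left_ne_zero_of_mul hl
  have l2 := right_ne_zero_of_mul hl
  have m2 := five_mul_le k2 e2 l2
  rw [Finset.card_union_of_disjoint h1.disjoint] at hN
  have hev : Even d₁ := by
    by_contra ho
    exact l1 (lam_odd e1 (Nat.not_even_iff_odd.1 ho))
  obtain ⟨m, hm⟩ := hev
  omega

/-- the edge `s t` is in no square of the complex on `W` -/
def Sq (H : SimpleGraph α) (W : Finset α) (s t : α) : Prop :=
  ∀ x ∈ W, ∀ y ∈ W, x ≠ s → y ≠ t → H.Adj t x → H.Adj x y → H.Adj y s →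
    H.Adj s x ∨ H.Adj t y

theorem sq_join {A B : Finset α} (hAB : Full H A B) {s t : α} (hs : s ∈ A) (ht : t ∈ A)
    (h : Sq H A s t) : Sq H (A ∪ B) s t := by
  intro x hx y hy hxs hyt h1 h2 h3
  rcases Finset.mem_union.1 hx with hx | hx
  · rcases Finset.mem_union.1 hy with hy | hy
    · exact h x hx y hy hxs hyt h1 h2 h3
    · exact Or.inr (hAB t ht y hy)
  · exact Or.inl (hAB s hs x hx)

theorem lkF_join {A B : Finset α} (hAB : Full H A B) {κ : Finset α} (hκ : κ ⊆ A) :
    lkF H (A ∪ B) κ = lkF H A κ ∪ B := by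
  rw [Finset.union_comm, hAB.symm.lkF_right hκ, Finset.union_comm]

theorem pair_mem_cl {W : Finset α} {p q : α} (hp : p ∈ W) (hq : q ∈ W) (hpq : H.Adj p q) :
    ({p, q} : Finset α) ∈ cl H W := by
  rw [mem_cl]
  refine ⟨fun z hz => ?_, fun x hx z hz hxz => ?_⟩
  · rcases Finset.mem_insert.1 hz with h | h
    · rwa [h]
    · rwa [Finset.mem_singleton.1 h]
  · rw [Finset.mem_insert, Finset.mem_singleton] at hx hz
    rcases hx with rfl | rfl <;> rcases hz with rfl | rfl
    · exact absurd rfl hxz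
    · exact hpq
    · exact hpq.symm
    · exact absurd rfl hxz

/-- polygons -/
theorem step_two {C : Finset α} (h : NP H 2 C) (hp : Prm H C) :
    ∃ s ∈ C, ∃ t ∈ C, H.Adj s t ∧ Sq H C s t := by
  have h5 := Prm.three_mul_le (d := 1) h hp
  obtain ⟨s, hs⟩ := h.nonempty
  obtain ⟨t, ht⟩ := (h.lk hs).nonempty
  rw [mem_lk] at ht
  refine ⟨s, hs, t, ht.1, ht.2, ?_⟩
  intro x hx y hy hxs hyt h1 h2 h3
  by_contra hc
  push Not at hc
  obtain ⟨c1, c2⟩ := hc
  have hst := ht.2
  have n1 : ∀ v, ∀ p q : α, p ≠ q → ¬ H.Adj p q → H.Adj v p → H.Adj v q → ∀ r, ¬ H.Adj v r →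
      Q H 1 (lk H ({v, p, q, r} : Finset α) v) := by
    intro v p q hpq hn hvp hvq r hvr
    have e : lk H ({v, p, q, r} : Finset α) v = {p, q} := by
      ext z
      rw [mem_lk]
      simp only [Finset.mem_insert, Finset.mem_singleton]
      constructor
      · rintro ⟨rfl | rfl | rfl | rfl, hz⟩
        · exact absurd rfl hz.ne
        · exact Or.inl rfl
        · exact Or.inr rfl
        · exact absurd hz hvr
      · rintro (rfl | rfl)
        · exact ⟨by tauto, hvp⟩
        · exact ⟨by tauto, hvq⟩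
    rw [e]
    refine ⟨(Finset.card_pair hpq).ge, fun a ha b hb => ?_⟩
    rw [Finset.mem_insert, Finset.mem_singleton] at ha hb
    rcases ha with rfl | rfl <;> rcases hb with rfl | rfl
    · exact fun h => h.ne rfl
    · exact hn
    · exact fun h => hn h.symm
    · exact fun h => h.ne rfl
  have hT : ({s, t, y, x} : Finset α) = C := by
    refine closed_eq h ?_ ⟨⟨s, by simp⟩, fun v hv => ?_⟩
    · intro z hz
      simp only [Finset.mem_insert, Finset.mem_singleton] at hz
      rcases hz with rfl | rfl | rfl | rfl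
      · exact hs
      · exact ht.1
      · exact hy
      · exact hx
    · simp only [Finset.mem_insert, Finset.mem_singleton] at hv
      rcases hv with rfl | rfl | rfl | rfl
      · exact n1 v t y hyt.symm c2 hst h3.symm x c1
      · have e : ({s, v, y, x} : Finset α) = {v, s, x, y} := by
          ext z; simp only [Finset.mem_insert, Finset.mem_singleton]; tauto
        rw [e]
        exact n1 v s x hxs.symm c1 hst.symm h1 y c2
      · have e : ({s, t, v, x} : Finset α) = {v, s, x, t} := by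
          ext z; simp only [Finset.mem_insert, Finset.mem_singleton]; tauto
        rw [e]
        exact n1 v s x hxs.symm c1 h3 h2.symm t (fun h => c2 h.symm)
      · have e : ({s, t, y, v} : Finset α) = {v, t, y, s} := by
          ext z; simp only [Finset.mem_insert, Finset.mem_singleton]; tauto
        rw [e]
        exact n1 v t y hyt.symm c2 h1.symm h2 s (fun h => c1 h.symm)
  have hc4 : C.card ≤ 4 := by
    rw [← hT]
    exact Finset.card_le_four
  omega

/-- prime complexes of defect zero -/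
theorem step_prm {d : ℕ} {C : Finset α} (h : NP H (d + 2) C) (hE : Eul H (d + 2) C)
    (hp : Prm H C) (hl : lam H C ≠ 0) (hc : C.card + 1 ≤ 3 * (d + 2)) :
    ∃ s ∈ C, ∃ t ∈ C, H.Adj s t ∧ Sq H C s t ∧ lam H (lkF H C {s, t}) ≠ 0 := by
  obtain ⟨v, hv, hpv, hm⟩ := exists_small (k := 0) h hp (by omega)
  have hm2 : (nn H C v).card = 2 := by
    have := Prm.two_le_nn h hp hv
    omega
  obtain ⟨a, b, hab, hM⟩ := Finset.card_eq_two.1 hm2
  have haM : a ∈ nn H C v := by rw [hM]; simp
  have hbM : b ∈ nn H C v := by rw [hM]; simp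
  have haW := nn_subset haM
  have hbW := nn_subset hbM
  have hlam := lam_vertex_small hE hv (fun κ hκ =>
    ((Finset.card_le_card (mem_cl.1 hκ).1).trans_eq hm2).trans (by norm_num))
  have hadj : H.Adj a b := by
    by_contra hn
    apply hl
    rw [hlam, hM, cl_pair_not hab hn]
    have : (({∅, {a}, {b}} : Finset (Finset α))).filter (fun κ => κ.card = 2) = ∅ := by
      apply Finset.eq_empty_of_forall_notMem
      intro κ hκ
      rw [Finset.mem_filter] at hκ
      simp only [Finset.mem_insert, Finset.mem_singleton] at hκ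
      obtain ⟨rfl | rfl | rfl, h2⟩ := hκ <;> simp at h2
    rw [this]
    simp
  have hlam2 : lam H C = (-1 / 4) * lam H (lkF H C {a, b}) := by
    rw [hlam, hM, cl_pair hadj]
    have : (({∅, {a}, {b}, {a, b}} : Finset (Finset α))).filter (fun κ => κ.card = 2) =
        {{a, b}} := by
      ext κ
      rw [Finset.mem_filter]
      simp only [Finset.mem_insert, Finset.mem_singleton]
      constructor
      · rintro ⟨rfl | rfl | rfl | rfl, h2⟩
        · simp at h2
        · simp at h2
        · simp at h2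
        · rfl
      · rintro rfl
        exact ⟨by tauto, Finset.card_pair hab⟩
    rw [this, Finset.sum_singleton]
  refine ⟨a, haW, b, hbW, hadj, ?_, ?_⟩
  · intro x hx y hy hxa hyb h1 h2 h3
    by_contra hcon
    push Not at hcon
    obtain ⟨c1, c2⟩ := hcon
    have hva := (mem_nn.1 haM).2.2
    have hvb := (mem_nn.1 hbM).2.2
    have hav : a ≠ v := (mem_nn.1 haM).2.1
    have hbv : b ≠ v := (mem_nn.1 hbM).2.1
    have inL : ∀ z ∈ C, z ≠ v → z ≠ a → z ≠ b → H.Adj v z := by
      intro z hz hzv hza hzb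
      by_contra hn
      have : z ∈ nn H C v := mem_nn.2 ⟨hz, hzv, hn⟩
      rw [hM, Finset.mem_insert, Finset.mem_singleton] at this
      tauto
    have hvx : H.Adj v x := inL x hx (fun h => hvb (h ▸ h1.symm)) hxa h1.ne.symm
    have hvy : H.Adj v y := inL y hy (fun h => hva (h ▸ h3)) h3.ne hyb
    have k1 := h.lk hx
    have hy1 : y ∈ lk H C x := mem_lk.2 ⟨hy, h2⟩
    obtain ⟨e, he, k2⟩ := k1.lk' hy1
    have hv2 : v ∈ lk H (lk H C x) y := mem_lk.2 ⟨mem_lk.2 ⟨hv, hvx.symm⟩, hvy.symm⟩
    obtain ⟨u, u1, u2, u3⟩ := k2.exists_nonadj hv2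
    rw [mem_lk, mem_lk] at u1
    have : u ∈ nn H C v := mem_nn.2 ⟨u1.1.1, u2, u3⟩
    rw [hM, Finset.mem_insert, Finset.mem_singleton] at this
    rcases this with rfl | rfl
    · exact c1 u1.1.2.symm
    · exact c2 u1.2.symm
  · intro h0
    apply hl
    rw [hlam2, h0, mul_zero]

/-- **the step**: nonzero Charney-Davis quantity and few vertices imply an edge in no square whose
link has the same properties -/
theorem step {d : ℕ} {W : Finset α} (h : NP H (d + 1) W) (hE : Eul H (d + 1) W)
    (hl : lam H W ≠ 0) (hF : FC H W) : ∃ e, d = e + 1 ∧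
    ∃ s ∈ W, ∃ t ∈ W, H.Adj s t ∧ Sq H W s t ∧ NP H e (lkF H W {s, t}) ∧
      Eul H e (lkF H W {s, t}) ∧ lam H (lkF H W {s, t}) ≠ 0 ∧ FC H (lkF H W {s, t}) := by
  obtain ⟨x, hx⟩ := h.nonempty
  obtain ⟨C, hC, hxC⟩ := exists_comp (H := H) hx
  obtain ⟨h1, h2, h3⟩ := comp_split hC
  set R := W \ C with hR
  have hF' := hF
  have hCF := hF C hC
  rw [← h2] at h hE hl hF'
  obtain ⟨d₁, d₂, hd, k1, k2⟩ := h.split h1
  rw [← hd] at hE
  have e1 := hE.left h1 k2
  have e2 := hE.right h1 k1
  rw [lam_join h1] at hl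
  have l1 := left_ne_zero_of_mul hl
  have l2 := right_ne_zero_of_mul hl
  have hev : Even d₁ := by
    by_contra ho
    exact l1 (lam_odd e1 (Nat.not_even_iff_odd.1 ho))
  have hpos : d₁ ≠ 0 := by
    rintro rfl
    have : C = ∅ := k1
    rw [this] at hxC
    exact absurd hxC (Finset.notMem_empty x)
  obtain ⟨m, hm⟩ := hev
  obtain ⟨e, rfl⟩ : ∃ e, d₁ = e + 2 := ⟨d₁ - 2, by omega⟩
  have key : ∃ s ∈ C, ∃ t ∈ C, H.Adj s t ∧ Sq H C s t ∧ lam H (lkF H C {s, t}) ≠ 0 ∧
      FC H (lkF H C {s, t}) := by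
    rcases Nat.eq_zero_or_pos e with rfl | hepos
    · obtain ⟨s, hs, t, ht, hst, hsq⟩ := step_two k1 h3
      refine ⟨s, hs, t, ht, hst, hsq, ?_⟩
      obtain ⟨e', he', hNP, -, -⟩ := k1.lkF (pair_mem_cl hs ht hst)
      rw [Finset.card_pair hst.ne] at he'
      obtain rfl : e' = 0 := by omega
      have h0 : lkF H C {s, t} = ∅ := hNP
      rw [h0]
      refine ⟨by rw [lam_empty]; norm_num, ?_⟩
      intro D hD
      rw [comps_empty] at hD
      exact absurd hD (Finset.notMem_empty D)
    · have hcard : C.card + 1 ≤ 3 * (e + 2) := by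
        rcases hCF (e + 2) k1 with h | h
        · omega
        · exact h
      obtain ⟨s, hs, t, ht, hst, hsq, hl'⟩ := step_prm k1 e1 h3 l1 hcard
      refine ⟨s, hs, t, ht, hst, hsq, hl', ?_⟩
      obtain ⟨e', he', hNP, hdef, -⟩ := k1.lkF (pair_mem_cl hs ht hst)
      rw [Finset.card_pair hst.ne] at he' hdef
      refine fc_of_defect hNP ?_
      rw [comps_prm h3, Finset.card_singleton] at hdef
      omega
  obtain ⟨s, hs, t, ht, hst, hsq, hl', hF2⟩ := key
  have hsW : s ∈ C ∪ R := Finset.mem_union_left _ hs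
  have htW : t ∈ C ∪ R := Finset.mem_union_left _ ht
  have hκ := pair_mem_cl (H := H) hsW htW hst
  obtain ⟨e', he', hNP, -, -⟩ := h.lkF hκ
  have he'' : e' + ({s, t} : Finset α).card = e + 2 + d₂ := by rw [he']; exact hd.symm
  have hEul := hE.lkF_rank hκ he''
  rw [Finset.card_pair hst.ne] at he'
  have hsub : ({s, t} : Finset α) ⊆ C := by
    intro z hz
    rcases Finset.mem_insert.1 hz with h | h
    · rwa [h]
    · rwa [Finset.mem_singleton.1 h]
  have hlk := lkF_join h1 hsub
  have hfull : Full H (lkF H C {s, t}) R := h1.mono (fun z hz => (mem_lkF.1 hz).1)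
    (Finset.Subset.refl R)
  rw [← h2]
  refine ⟨e', by omega, s, hsW, t, htW, hst, sq_join h1 hs ht hsq, hNP, hEul, ?_, ?_⟩
  · rw [hlk, lam_join hfull]
    exact mul_ne_zero hl' l2
  · rw [hlk]
    exact hF2.union hfull (hF'.right h1)

end Pool.Agent.U410.FM
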